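import Pool.Agent.Helper84.FP.Goals

/-!
MP_43a2f8_nt, packet FQ-ORD.
-/

set_option autoImplicit false

namespace Pool.Agent.Helper31.FQ.ORD

open Finset Pool.Agent.Helper91.FP Pool.Agent.Helper84.FP

/-- the first `m` prime factors are discovered. -/
def Pm (n m : ℕ) (q : ℕ → ℕ) : Prop :=
  q 0 = n.minFac ∧ (∀ j < m, q j ∈ n.primeFactors) ∧
  (∀ j < m, ∀ i < j, q i ≠ q j) ∧
  ∀ j < m, 1 ≤ j →
    q j ∣ ∏ i ∈ range j, G (q i) (n.factorization (q i)) ∧
    ∀ p ∈ n.primeFactors, (∀ i < j, p ≠ q i) →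
      p ∣ ∏ i ∈ range j, G (q i) (n.factorization (q i)) → q j ≤ p

theorem step (hC : S_CLO) (n : ℕ) (hn : 0 < n) (ha : a n = n) (m : ℕ)
    (hm : m + 1 ≤ n.primeFactors.card) (q : ℕ → ℕ) (h : Pm n m q) : ∃ q' : ℕ → ℕ, Pm n (m + 1) q' := by
  obtain ⟨h0, h1, h2, h3⟩ := h
  have hne : n ≠ 1 := by
    intro h
    subst h
    simp at hm
  have hmin : n.minFac ∈ n.primeFactors :=
    Nat.mem_primeFactors.2 ⟨Nat.minFac_prime hne, Nat.minFac_dvd n, hn.ne'⟩
  rcases Nat.eq_zero_or_pos m with hm0 | hm0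
  · subst hm0
    refine ⟨q, h0, fun j hj => ?_, fun j hj i hi => ?_, fun j hj hj1 => ?_⟩
    · obtain rfl : j = 0 := by omega
      rw [h0]; exact hmin
    · omega
    · omega
  · -- the known primes
    set K := image q (range m) with hK
    have hinj : Set.InjOn q (range m : Set ℕ) := by
      intro i hi j hj hij
      rw [Finset.mem_coe, Finset.mem_range] at hi hj
      rcases lt_trichotomy i j with hlt | heq | hlt
      · exact absurd hij (h2 j hj i hlt)
      · exact heq
      · exact absurd hij.symm (h2 i hi j hlt)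
    have hKS : K ⊆ n.primeFactors := by
      intro p hp
      obtain ⟨j, hj, rfl⟩ := Finset.mem_image.1 hp
      exact h1 j (Finset.mem_range.1 hj)
    have hKne : K.Nonempty := ⟨q 0, Finset.mem_image.2 ⟨0, Finset.mem_range.2 hm0, rfl⟩⟩
    have hKc : K.card ≤ m := (Finset.card_image_le).trans (by rw [Finset.card_range])
    have hKS' : K ≠ n.primeFactors := by
      intro h
      rw [h] at hKc
      omega
    obtain ⟨p, hp, hpd⟩ := hC n hn ha K hKS hKne hKS'
    have hprod : ∏ x ∈ K, G x (n.factorization x)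
        = ∏ i ∈ range m, G (q i) (n.factorization (q i)) :=
      Finset.prod_image hinj
    rw [hprod] at hpd
    rw [Finset.mem_sdiff] at hp
    have hex : ∃ p, p ∈ n.primeFactors ∧ (∀ i < m, p ≠ q i) ∧
        p ∣ ∏ i ∈ range m, G (q i) (n.factorization (q i)) := by
      refine ⟨p, hp.1, fun i hi hpi => hp.2 ?_, hpd⟩
      rw [hpi]
      exact Finset.mem_image.2 ⟨i, Finset.mem_range.2 hi, rfl⟩
    classical
    obtain ⟨s1, s2, s3⟩ := Nat.find_spec hex
    have smin : ∀ p, p ∈ n.primeFactors → (∀ i < m, p ≠ q i) →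
        p ∣ ∏ i ∈ range m, G (q i) (n.factorization (q i)) → Nat.find hex ≤ p :=
      fun p a1 a2 a3 => Nat.find_min' hex ⟨a1, a2, a3⟩
    generalize Nat.find hex = p0 at s1 s2 s3 smin
    have hu : ∀ i, i < m → Function.update q m p0 i = q i := fun i hi =>
      Function.update_of_ne (by omega) _ _
    have hum : Function.update q m p0 m = p0 := Function.update_self _ _ _
    have hpr : ∀ j, j ≤ m → ∏ i ∈ range j, G (Function.update q m p0 i)
        (n.factorization (Function.update q m p0 i))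
        = ∏ i ∈ range j, G (q i) (n.factorization (q i)) := fun j hj =>
      Finset.prod_congr rfl fun i hi => by
        rw [hu i (lt_of_lt_of_le (Finset.mem_range.1 hi) hj)]
    refine ⟨Function.update q m p0, ?_, fun j hj => ?_, fun j hj i hi => ?_, fun j hj hj1 => ?_⟩
    · rw [hu 0 hm0, h0]
    · rcases Nat.lt_succ_iff_lt_or_eq.1 hj with hj | rfl
      · rw [hu j hj]; exact h1 j hj
      · rw [hum]; exact s1
    · rcases Nat.lt_succ_iff_lt_or_eq.1 hj with hj | rfl
      · rw [hu j hj, hu i (hi.trans hj)]; exact h2 j hj i hi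
      · rw [hum, hu i hi]; exact (s2 i hi).symm
    · rw [hpr j (by omega)]
      rcases Nat.lt_succ_iff_lt_or_eq.1 hj with hj | rfl
      · rw [hu j hj]
        refine ⟨(h3 j hj hj1).1, fun p hp hpi hpd => (h3 j hj hj1).2 p hp (fun i hi => ?_) hpd⟩
        have := hpi i hi
        rwa [hu i (hi.trans hj)] at this
      · rw [hum]
        refine ⟨s3, fun p hp hpi hpd => smin p hp (fun i hi => ?_) hpd⟩
        have := hpi i hi
        rwa [hu i hi] at this

theorem t : S_CLO → S_ORD := by
  intro hC n hn ha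
  have key : ∀ m, m ≤ n.primeFactors.card → ∃ q : ℕ → ℕ, Pm n m q := by
    intro m
    induction m with
    | zero =>
      intro _
      exact ⟨fun _ => n.minFac, rfl, fun j hj => absurd hj (Nat.not_lt_zero j),
        fun j hj => absurd hj (Nat.not_lt_zero j), fun j hj => absurd hj (Nat.not_lt_zero j)⟩
    | succ m ih =>
      intro hm
      obtain ⟨q, hq⟩ := ih (by omega)
      exact step hC n hn ha m hm q hq
  exact key _ le_rfl

end Pool.Agent.Helper31.FQ.ORD
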